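import Mathlib
import Pool.Agent.Lib.helper24.Succ

open Set Filter Topology Pool.Agent.Lib.helper24.Succ
open Cardinal hiding univ

namespace Pool.Agent.Results.MP_13df43_gt.NoStationary

theorem result : ∃ (G : Type) (_ : AddCommGroup G) (_ : TopologicalSpace G),
    IsTopologicalAddGroup G ∧ T2Space G ∧
    (∀ H : AddSubgroup G, (H : Set G).Countable → IsCompact (closure (H : Set G))) ∧
    ¬ ∃ s : Set G → G, (∀ U, IsOpen U → U.Nonempty → s U ∈ U) ∧
      ∀ U : ℕ → Set G, (∀ n, IsOpen (U n) ∧ (U n).Nonempty) →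
        ∃ (φ : ℕ → ℕ) (x : G), StrictMono φ ∧ Tendsto (fun k => s (U (φ k))) atTop (𝓝 x) := by
  classical
  let K : W ℵ₀ → Set ((W ℵ₀ → ZMod 2) → ZMod 2) := fun a =>
    {χ | ∀ x y z, (∀ i < a, z i = x i + y i) → χ z = χ x + χ y}
  have hm : Monotone K := fun a b h χ hχ x y z hz => hχ x y z fun i hi => hz i (hi.trans_le h)
  let G : AddSubgroup ((W ℵ₀ → ZMod 2) → ZMod 2) :=
    { carrier := ⋃ a, K a
      add_mem' := by
        rintro χ ψ ⟨_, ⟨a, rfl⟩, ha⟩ ⟨_, ⟨b, rfl⟩, hb⟩
        refine mem_iUnion.2 ⟨max a b, fun x y z h => ?_⟩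
        simp only [Pi.add_apply, hm (le_max_left a b) ha x y z h, hm (le_max_right a b) hb x y z h]
        ring
      zero_mem' := mem_iUnion.2 ⟨Classical.arbitrary _, fun _ _ _ _ => by simp⟩
      neg_mem' := by
        rintro χ ⟨_, ⟨a, rfl⟩, ha⟩
        exact mem_iUnion.2 ⟨a, fun x y z h => by simp [ha x y z h, add_comm]⟩ }
  choose β hβ using fun χ : G => mem_iUnion.1 χ.2
  refine ⟨G, inferInstance, inferInstance, inferInstance, inferInstance, fun H hH => ?_, ?_⟩
  · obtain ⟨a, ha⟩ := bdd_countable le_rfl _ (hH.image β)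
    have hc : IsClosed (K a) := by
      simp only [K, ofPred_forall]
      exact isClosed_iInter fun x => isClosed_iInter fun y => isClosed_iInter fun z =>
        isClosed_iInter fun _ => isClosed_eq (by fun_prop) (by fun_prop)
    exact (IsInducing.subtypeVal.isCompact_preimage' hc.isCompact fun x hx =>
      ⟨⟨x, mem_iUnion.2 ⟨a, hx⟩⟩, rfl⟩).of_isClosed_subset isClosed_closure
        (closure_minimal (fun χ hχ => hm (ha _ ⟨χ, hχ, rfl⟩).le (hβ χ))
          (hc.preimage continuous_subtype_val))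
  rintro ⟨s, hs, hw⟩
  have cev : ∀ x, Continuous fun χ : G => χ.1 x := fun x =>
    (continuous_apply x).comp continuous_subtype_val
  let V : W ℵ₀ → Set G := fun a => {χ | χ.1 (Pi.single a 1) = 1}
  have hV : ∀ a, IsOpen (V a) ∧ (V a).Nonempty := fun a => by
    obtain ⟨b, hb⟩ := exists_gt le_rfl a
    exact ⟨(isOpen_discrete {1}).preimage (cev _),
      ⟨fun x => x a, mem_iUnion.2 ⟨b, fun x y z h => h a hb⟩⟩, by simp [V]⟩
  have h1 : ∀ a, (s (V a)).1 (Pi.single a 1) = 1 := fun a => hs _ (hV a).1 (hV a).2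
  have h0 : ∀ χ : G, χ.1 0 = 0 := fun χ => by simpa using hβ χ 0 0 0 (by simp)
  have h2 : ∀ a, a < β (s (V a)) := fun a => by
    by_contra h
    have := hβ (s (V a)) 0 0 (Pi.single a 1) fun i hi => by
      simp [(hi.trans_le (not_lt.1 h)).ne]
    simp [h1, h0] at this
  let α : ℕ → W ℵ₀ := fun n => Nat.rec (Classical.arbitrary _) (fun _ a => β (s (V a))) n
  have hα : StrictMono α := strictMono_nat_of_lt_succ fun n => h2 _
  obtain ⟨φ, x, hφ, hx⟩ := hw (fun n => V (α n)) fun n => hV _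
  let t : ℕ → ZMod 2 := Function.extend φ (fun k => k) 0
  let y : ℕ → W ℵ₀ → ZMod 2 := fun n => Nat.rec 0
    (fun n y => y + Pi.single (α n) (t n - (s (V (α n))).1 y)) n
  let z : W ℵ₀ → ZMod 2 := Function.extend α (fun n => t n - (s (V (α n))).1 (y n)) 0
  have hz0 : ∀ i, (∀ m, α m ≠ i) → z i = 0 := fun i h =>
    Function.extend_apply' _ _ _ fun ⟨m, hm⟩ => h m hm
  have hy : ∀ n i, (i < α n → y n i = z i) ∧ (α n ≤ i → y n i = 0) := by
    intro n
    induction n with
    | zero => exact fun i => ⟨fun h => (hz0 i fun m hm =>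
        (hm ▸ h).not_ge (hα.monotone m.zero_le)).symm, fun _ => rfl⟩
    | succ n ih =>
      intro i
      have := hα n.lt_succ_self
      rw [show y (n + 1) i = y n i + Pi.single (M := fun _ => ZMod 2) (α n)
        (t n - (s (V (α n))).1 (y n)) i from rfl]
      rcases lt_trichotomy i (α n) with h | rfl | h
      · simp [h.trans this, h.ne, (ih i).1 h]
      · simp [this, z, hα.injective.extend_apply, (ih _).2 le_rfl]
      · rw [(ih i).2 h.le, Pi.single_eq_of_ne h.ne', add_zero]
        refine ⟨fun h' => (hz0 i ?_).symm, fun _ => rfl⟩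
        rintro m rfl
        have := hα.lt_iff_lt.1 h
        have := (hα.lt_iff_lt (a := m) (b := n + 1)).1 h'
        omega
  have hz : ∀ n, (s (V (α n))).1 z = t n := fun n => by
    rw [hβ _ (y n) (Pi.single (α n) (t n - (s (V (α n))).1 (y n))) z fun i hi =>
      ((hy (n + 1) i).1 hi).symm]
    rcases (by decide : ∀ c : ZMod 2, c = 0 ∨ c = 1) (t n - (s (V (α n))).1 (y n)) with h | h
    · rw [h, Pi.single_zero, h0, add_zero, sub_eq_zero.1 h]
    · rw [h, h1, ← h, add_sub_cancel]
  have h3 := ((cev z).tendsto x).comp hx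
  simp only [Function.comp_def, hz, t, hφ.injective.extend_apply, nhds_discrete, tendsto_pure,
    eventually_atTop] at h3
  obtain ⟨N, hN⟩ := h3
  have := (hN (N + 1) N.le_succ).trans (hN N le_rfl).symm
  simp at this

end Pool.Agent.Results.MP_13df43_gt.NoStationary
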